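import Pool.Agent.Q209.DJ.Final

/-!
# The set of Denjoy integrable functions is coanalytic

Both questions of the problem have a negative answer: `Den [a, b]` is a coanalytic subset of the
space `M [a, b]` of measurable functions with the topology of convergence in measure; in particular
it is `Δ¹₂`.

Idea. Let `F` be a continuous function on `[c, d]` and `f` a measurable function. Call `F` good for
`f` if `F' = f` almost everywhere and for all rational `u < v` the increment `F v - F u` is at most
the integral of `|f|` over the set of the times `t` in `[u, v]` at which the maximum of `F` over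
`[u, t]` is attained, and the same for `-F`. This is a Borel condition on `F` and `f`, each `F` in
`ACG_*` with `F' = f` a.e. is good (as `F` maps null sets to null sets), and if `f` is Denjoy
integrable, then each good function is an indefinite Denjoy integral of `f`: on a portion of the
set of points where the difference to the integral is not locally constant, a good function satisfies
the inequality `|F y - F x| ≤ ∫ |f| + ∑ ω(F, gap)` (the integral over the portion and the sum over
its gaps), so it is absolutely continuous there.

A function `f` is not Denjoy integrable if and only if there are a set `E` of rational intervals, whose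
interiors do not cover `[a, b]`, and good functions on the members of `E`, such that for no rational
interval outside `E` there is an extension of these functions which is in `AC_*` of the remaining
closed set. As such an extension is unique, this is an analytic condition (Lusin-Souslin).
-/

set_option autoImplicit false

namespace Pool.Agent.Results.MP_c24d14_lc.DenIsCoanalytic

open Set MeasureTheory Filter Topology
open Q209.DJ

/-- `s` is coanalytic (`Π¹₁`): its complement is analytic. -/
def Coanalytic {X : Type} [TopologicalSpace X] (s : Set X) : Prop := AnalyticSet sᶜ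

/-- `s` is `Σ¹₂`: the projection of a coanalytic subset of `X × ℕ^ℕ`. -/
def Sigma12 {X : Type} [TopologicalSpace X] (s : Set X) : Prop :=
  ∃ C : Set (X × (ℕ → ℕ)), Coanalytic C ∧ s = Prod.fst '' C

/-- `s` is `Δ¹₂`: both `s` and its complement are `Σ¹₂`. -/
def Delta12 {X : Type} [TopologicalSpace X] (s : Set X) : Prop := Sigma12 s ∧ Sigma12 sᶜ

/-- coanalytic subsets are `Σ¹₂` -/
theorem sigma12_of_coanalytic {X : Type} [TopologicalSpace X] {s : Set X} (h : Coanalytic s) :
    Sigma12 s := by
  refine ⟨s ×ˢ univ, ?_, ?_⟩
  · unfold Coanalytic at h ⊢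
    rw [AnalyticSet] at h
    rcases h with h | ⟨f, hf, hfs⟩
    · have : (s ×ˢ (univ : Set (ℕ → ℕ)))ᶜ = ∅ := by
        rw [compl_empty_iff] at h
        rw [h]; simp
      rw [this]
      exact analyticSet_empty
    · have : (s ×ˢ (univ : Set (ℕ → ℕ)))ᶜ = range fun p : (ℕ → ℕ) × (ℕ → ℕ) => (f p.1, p.2) := by
        ext ⟨x, y⟩
        simp only [mem_compl_iff, mem_prod, mem_univ, and_true, mem_range, Prod.mk.injEq,
          Prod.exists]
        have h1 : x ∉ s ↔ x ∈ range f := by rw [hfs]; rfl
        rw [h1]
        constructor
        · rintro ⟨z, hz⟩; exact ⟨z, y, hz, rfl⟩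
        · rintro ⟨z, -, hz, -⟩; exact ⟨z, hz⟩
      rw [this]
      exact analyticSet_range_of_polishSpace ((hf.comp continuous_fst).prodMk continuous_snd)
  · ext x
    constructor
    · intro hx; exact ⟨(x, fun _ => 0), ⟨hx, mem_univ _⟩, rfl⟩
    · rintro ⟨⟨x', y⟩, ⟨hx, -⟩, rfl⟩; exact hx

/-- analytic subsets of a Hausdorff analytic space are `Σ¹₂` -/
theorem sigma12_of_analytic {X : Type} [TopologicalSpace X] [T2Space X]
    (hX : AnalyticSet (univ : Set X)) {s : Set X} (h : AnalyticSet s) : Sigma12 s := by
  rw [AnalyticSet] at h hX
  rcases h with rfl | ⟨f, hf, hfs⟩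
  · refine ⟨∅, ?_, by simp⟩
    unfold Coanalytic
    rw [compl_empty]
    rcases hX with hX | ⟨g, hg, hgX⟩
    · have : (univ : Set (X × (ℕ → ℕ))) = ∅ := by
        rw [univ_eq_empty_iff] at hX ⊢
        infer_instance
      rw [this]; exact analyticSet_empty
    · have : (univ : Set (X × (ℕ → ℕ))) = range fun p : (ℕ → ℕ) × (ℕ → ℕ) => (g p.1, p.2) := by
        symm
        rw [range_eq_univ]
        rintro ⟨x, y⟩
        obtain ⟨z, hz⟩ := hgX.symm.subset (mem_univ x)
        exact ⟨(z, y), by rw [← hz]⟩
      rw [this]
      exact analyticSet_range_of_polishSpace ((hg.comp continuous_fst).prodMk continuous_snd)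
  · refine ⟨{p | f p.2 = p.1}, ?_, ?_⟩
    · unfold Coanalytic
      rcases hX with hX | ⟨g, hg, hgX⟩
      · have : IsEmpty X := univ_eq_empty_iff.mp hX
        rw [eq_empty_of_isEmpty ({p : X × (ℕ → ℕ) | f p.2 = p.1}ᶜ)]
        exact analyticSet_empty
      · let G : (ℕ → ℕ) × (ℕ → ℕ) → X × (ℕ → ℕ) := fun p => (g p.1, p.2)
        have hG : Continuous G := (hg.comp continuous_fst).prodMk continuous_snd
        have hGs : Function.Surjective G := by
          rintro ⟨x, y⟩
          obtain ⟨z, hz⟩ := hgX.symm.subset (mem_univ x)
          exact ⟨(z, y), by simp only [G, hz]⟩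
        have ho : IsOpen {p : X × (ℕ → ℕ) | f p.2 = p.1}ᶜ :=
          (isClosed_eq (hf.comp continuous_snd) continuous_fst).isOpen_compl
        rw [← image_preimage_eq ({p : X × (ℕ → ℕ) | f p.2 = p.1}ᶜ) hGs]
        exact (ho.preimage hG).analyticSet_image hG
    · ext x
      constructor
      · intro hx
        rw [← hfs] at hx
        obtain ⟨y, hy⟩ := hx
        exact ⟨(x, y), hy, rfl⟩
      · rintro ⟨⟨x', y⟩, hy, rfl⟩
        rw [← hfs]
        exact ⟨y, hy⟩

instance (a b : ℝ) : T2Space (MeasFun a b) := by
  refine T2Space.of_injective_continuous (f := MeasFun.toL1) ?_ (isInducing_toL1 a b).continuous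
  intro f g hfg
  have h1 := Integrable.coeFn_toL1
    (integrable_arctan (a := a) (b := b) f.measurable_rep.aestronglyMeasurable)
  have h2 := Integrable.coeFn_toL1
    (integrable_arctan (a := a) (b := b) g.measurable_rep.aestronglyMeasurable)
  have h3 : f.rep =ᵐ[volume.restrict (Icc a b)] g.rep := by
    filter_upwards [h1, h2] with x hx1 hx2
    have h4 : (f.toL1 : ℝ → ℝ) x = (g.toL1 : ℝ → ℝ) x := by rw [hfg]
    simp only [MeasFun.toL1] at h4
    rw [hx1, hx2] at h4
    exact Real.arctan_injective h4
  exact AEEqFun.ext h3

/-- For all `a < b`: convergence of sequences in `MeasFun a b` is convergence in measure, and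
the set of Denjoy integrable functions on `[a, b]` is coanalytic, in particular `Δ¹₂`. -/
theorem result (a b : ℝ) (hab : a < b) :
    (∀ (f : ℕ → MeasFun a b) (g : MeasFun a b), Tendsto f atTop (𝓝 g) ↔
      TendstoInMeasure (volume.restrict (Icc a b)) (fun n => (f n).rep) atTop g.rep) ∧
    Coanalytic (Den a b) ∧ Delta12 (Den a b) := by
  have hco : Coanalytic (Den a b) := den_coanalytic hab
  refine ⟨tendsto_iff_tendstoInMeasure, hco, sigma12_of_coanalytic hco,
    sigma12_of_analytic ?_ hco⟩
  let : MeasurableSpace (MeasFun a b) := borel _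
  have : BorelSpace (MeasFun a b) := ⟨rfl⟩
  have h1 := (MeasurableSet.univ (α := C(Icc a b, ℝ))).analyticSet_image
    (measurable_decode (a := a) (b := b) hab.le)
  rwa [image_univ_of_surjective (decode_surjective hab)] at h1

end Pool.Agent.Results.MP_c24d14_lc.DenIsCoanalytic
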